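import Pool.Agent.Y678.SZ.Main

/-!
# The pencil `y² = Y (x^(g+1) + 1)² + 4 T x^(g+1)` and the abc conjecture
-/

set_option autoImplicit false
set_option maxHeartbeats 1000000

namespace Pool.Agent.Q245.Sz

open Polynomial Pool.Agent.W318 NumberField IsDedekindDomain WithZero
open Pool.Agent.Y678.SZ

/-- the product of the prime divisors -/
def rad (n : ℕ) : ℕ := ∏ p ∈ n.primeFactors, p

/-- the member of the pencil -/
noncomputable def curve (K : Type) [Field K] (g Y T : ℕ) : K[X] :=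
  C (Y : K) * (X ^ (g + 1) + 1) ^ 2 + C (4 * (T : K)) * X ^ (g + 1)

theorem curve_eq (K : Type) [Field K] (g Y T : ℕ) :
    curve K g Y T = frm (g + 1) (Y : K) (T : K) ((1 : ℕ) : K) := by
  unfold curve frm tri
  simp only [Nat.cast_one, one_pow, mul_one, one_mul, map_add, map_mul, map_ofNat]
  ring

section

variable {K : Type} [Field K] [NumberField K] {g Y T : ℕ}

theorem hyp (hY : 0 < Y) (hT : 0 < T) : IsHyp g (curve K g Y T) := by
  rw [curve_eq]
  exact isHyp_frm hY hT one_pos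

theorem low (hg : 2 ≤ g) (hY : 0 < Y) (hT : 0 < T) (hcop : Nat.Coprime Y T) :
    DD g Y T 1 ^ Module.finrank ℚ K ≤ C0 g ^ Module.finrank ℚ K * discNorm g (curve K g Y T) := by
  have hDD0 : DD g Y T 1 ≠ 0 := by unfold DD; positivity
  have hC0 : C0 g ≠ 0 := by unfold C0; positivity
  refine disc_lower (hyp hY hT) hDD0 hC0 fun v => ?_
  rw [curve_eq]
  exact place_ineq hg hY hT one_pos hcop v (Or.inl (by simp))

theorem rad_pos (n : ℕ) : 0 < rad n :=
  Finset.prod_pos fun _ hp => (Nat.prime_of_mem_primeFactors hp).pos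

theorem dvd_rad {p n : ℕ} (hp : p.Prime) (hn : n ≠ 0) (h : p ∣ n) : p ∣ rad n :=
  Finset.dvd_prod_of_mem _ (Nat.mem_primeFactors.mpr ⟨hp, h, hn⟩)

theorem dd_dvd {p : ℕ} (hp : p.Prime) (h : p ∣ 2 * DD g Y T 1) :
    p ∣ 2 * (g + 1) ∨ p ∣ Y * T * (Y + T) := by
  unfold DD at h
  rcases (Nat.Prime.dvd_mul hp).mp h with h | h
  · exact Or.inl (h.mul_right _)
  rcases (Nat.Prime.dvd_mul hp).mp h with h | h
  · rcases (Nat.Prime.dvd_mul hp).mp h with h | h
    · rcases (Nat.Prime.dvd_mul hp).mp h with h | h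
      · exact Or.inl ((hp.dvd_of_dvd_pow h).mul_left _)
      · exact Or.inl ((hp.dvd_of_dvd_pow h).trans (one_dvd _))
    · exact Or.inr (((hp.dvd_of_dvd_pow h).mul_right _).mul_right _)
  · rcases (Nat.Prime.dvd_mul hp).mp (hp.dvd_of_dvd_pow h) with h | h
    · have : p ∣ 2 := hp.dvd_of_dvd_pow (show p ∣ 2 ^ 4 from h)
      exact Or.inl (this.mul_right _)
    · rcases (Nat.Prime.dvd_mul hp).mp h with h | h
      · exact Or.inr ((h.mul_left _).mul_right _)
      · exact Or.inr (h.mul_left _)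

theorem bad_up (hY : 0 < Y) (hT : 0 < T) :
    badNorm g (curve K g Y T) ≤
      (2 * (g + 1) * rad (Y * T * (Y + T))) ^ Module.finrank ℚ K := by
  have hm0 : 2 * (g + 1) * rad (Y * T * (Y + T)) ≠ 0 :=
    mul_ne_zero (by omega) (rad_pos _).ne'
  refine bad_upper (hyp hY hT) hm0 fun v hv => ?_
  rw [curve_eq] at hv
  have h3 := bad_place hY hT one_pos v hv
  have hDD0 : DD g Y T 1 ≠ 0 := by unfold DD; positivity
  obtain ⟨p, hp, hpd, hpv⟩ := exists_prime_of_val v (by positivity) h3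
  refine val_lt_of_dvd v hpv ?_
  rcases dd_dvd hp hpd with h | h
  · exact h.mul_right _
  · exact (dvd_rad hp (by positivity) h).mul_left _

theorem up (hg : 2 ≤ g) (hY : 0 < Y) (hT : 0 < T) :
    discNorm g (curve K g Y T) ≤ (2 ^ (4 * g) * DD g Y T 1) ^ Module.finrank ℚ K := by
  classical
  have hF := hyp (K := K) (g := g) hY hT
  have hDD0 : DD g Y T 1 ≠ 0 := by unfold DD; positivity
  have hm : 2 ^ (4 * g) * DD g Y T 1 ≠ 0 := by positivity
  obtain ⟨S₁, hS₁⟩ := prod_cnt (K := K) hm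
  have hB := finite_bad hF
  rw [← hS₁ (S₁ ∪ hB.toFinset) Finset.subset_union_left,
    discNorm_eq (S₁ ∪ hB.toFinset) (fun v hv => by simp [hv])]
  refine Finset.prod_le_prod (fun _ _ => Nat.zero_le _) fun v _ => ?_
  apply Nat.pow_le_pow_right (one_le_absNorm v)
  have hd : (curve K g Y T).natDegree ≤ g + 1 + (g + 1) := by have := hF.2; omega
  have hint : ∀ i, v.valuation K ((curve K g Y T).coeff i) ≤ 1 := by
    intro i
    have : ∃ z : ℕ, (curve K g Y T).coeff i = (z : K) := by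
      rw [curve_eq, frm, tri]
      simp only [coeff_add, coeff_C_mul, coeff_X_pow, coeff_C]
      refine ⟨Y * (if i = g + 1 + (g + 1) then 1 else 0) +
        (2 * Y + 4 * T) * (if i = g + 1 then 1 else 0) +
        (if i = 0 then Y else 0), ?_⟩
      push_cast
      simp only [one_pow, mul_one, one_mul]
    obtain ⟨z, hz⟩ := this
    rw [hz]
    exact val_nat_le_one v z
  obtain ⟨t, ht⟩ := exists_two_exp (K := K) v
  obtain ⟨k, hk, _, hle⟩ := minExp_le hF v (Eqv.refl hd) hint ht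
  refine hle.trans ?_
  have h1 : v.valuation K ((2 ^ (4 * g) * DD g Y T 1 : ℕ) : K) = exp (-((4 * g * t + k : ℕ) : ℤ)) := by
    push_cast
    rw [map_mul, map_pow, ht, ← val_discN_frm hY one_pos, ← curve_eq, hk, ← exp_nsmul, ← exp_add]
    congr 1
    simp only [nsmul_eq_mul]
    push_cast
    ring
  rw [val_cnt v hm] at h1
  rw [exp_inj] at h1
  omega

theorem exists_place (K : Type) [Field K] [NumberField K] {p : ℕ} (hp : p.Prime) :
    ∃ v : HeightOneSpectrum (𝓞 K), v.valuation K (p : K) < 1 ∧ p ≤ Ideal.absNorm v.asIdeal := by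
  classical
  obtain ⟨S, hS⟩ := prod_cnt (K := K) hp.ne_zero
  have h1 := hS S subset_rfl
  have hd : Module.finrank ℚ K ≠ 0 := Module.finrank_pos.ne'
  obtain ⟨v, _, hv⟩ : ∃ v ∈ S, cnt v p ≠ 0 := by
    by_contra hcon
    push Not at hcon
    rw [Finset.prod_eq_one (fun v hv => by rw [hcon v hv, pow_zero])] at h1
    exact (Nat.one_lt_pow hd hp.one_lt).ne h1
  refine ⟨v, ?_, ?_⟩
  · rw [val_cnt v hp.ne_zero, ← exp_zero, exp_lt_exp]
    omega
  · have h2 : v.valuation K (p : K) < 1 := by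
      rw [val_cnt v hp.ne_zero, ← exp_zero, exp_lt_exp]
      omega
    have h3 : (p : 𝓞 K) ∈ v.asIdeal := by
      have e : algebraMap (𝓞 K) K (p : 𝓞 K) = (p : K) := map_natCast _ p
      rw [← e] at h2
      rw [v.valuation_of_algebraMap] at h2
      exact (v.intValuation_lt_one_iff_mem _).mp h2
    have h4 : Ideal.absNorm v.asIdeal ∣ p ^ Module.finrank ℚ K := by
      have h5 := Ideal.absNorm_dvd_absNorm_of_le
        ((Ideal.span_singleton_le_iff_mem v.asIdeal).mpr h3)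
      rwa [Ideal.absNorm_span_natCast, RingOfIntegers.rank] at h5
    obtain ⟨k, _, hk⟩ := (Nat.dvd_prime_pow hp).mp h4
    rw [hk]
    refine Nat.le_self_pow ?_ p
    rintro rfl
    rw [pow_zero] at hk
    exact v.isPrime.ne_top (Ideal.absNorm_eq_one_iff.mp hk)

theorem bad_low (hg : 2 ≤ g) (hY : 0 < Y) (hT : 0 < T) (hcop : Nat.Coprime Y T) :
    rad (Y * T * (Y + T)) ≤ C0 g * badNorm g (curve K g Y T) := by
  classical
  have hF := hyp (K := K) (g := g) hY hT
  have hC0 : C0 g ≠ 0 := by unfold C0; positivity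
  have hB := finite_bad hF
  set n := Y * T * (Y + T) with hn
  have hn0 : n ≠ 0 := by positivity
  set c1 := n.primeFactors.filter fun p => ¬ p ∣ C0 g with hc1
  set c2 := n.primeFactors.filter fun p => p ∣ C0 g with hc2
  have e1 : rad n = (∏ p ∈ c2, p) * ∏ p ∈ c1, p := by
    rw [hc1, hc2, Finset.prod_filter_mul_prod_filter_not]
    rfl
  have h2 : ∏ p ∈ c2, p ≤ C0 g := by
    apply Nat.le_of_dvd (Nat.pos_of_ne_zero hC0)
    apply Finset.prod_primes_dvd
    · intro p hp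
      exact (Nat.prime_of_mem_primeFactors (Finset.mem_filter.mp hp).1).prime
    · intro p hp
      exact (Finset.mem_filter.mp hp).2
  have h1 : ∏ p ∈ c1, p ≤ badNorm g (curve K g Y T) := by
    rw [badNorm_eq hB.toFinset (fun v => by simp)]
    have hch : ∀ p ∈ c1, ∃ v : HeightOneSpectrum (𝓞 K), v.valuation K (p : K) < 1 ∧
        p ≤ Ideal.absNorm v.asIdeal := fun p hp =>
      exists_place K (Nat.prime_of_mem_primeFactors (Finset.mem_filter.mp hp).1)
    have hne : Nonempty (HeightOneSpectrum (𝓞 K)) := ⟨(exists_place K Nat.prime_two).choose⟩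
    choose! f hf1 hf2 using hch
    have hinj : Set.InjOn f (c1 : Set ℕ) := by
      intro p hp q hq hpq
      by_contra hne
      have hpp := Nat.prime_of_mem_primeFactors (Finset.mem_filter.mp hp).1
      have hqq := Nat.prime_of_mem_primeFactors (Finset.mem_filter.mp hq).1
      have hc : Nat.Coprime p q := (Nat.coprime_primes hpp hqq).mpr hne
      have a1 := hf1 p hp
      have a2 := hf1 q hq
      rw [← hpq] at a2
      rcases val_one_or hc (f p) with h | h
      · exact a1.ne h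
      · exact a2.ne h
    calc ∏ p ∈ c1, p ≤ ∏ p ∈ c1, Ideal.absNorm (f p).asIdeal :=
          Finset.prod_le_prod' fun p hp => hf2 p hp
      _ = ∏ v ∈ c1.image f, Ideal.absNorm v.asIdeal := by
          rw [Finset.prod_image hinj]
      _ ≤ ∏ v ∈ hB.toFinset, Ideal.absNorm v.asIdeal := by
          refine Finset.prod_le_prod_of_subset_of_one_le' (fun v hv => ?_)
            fun v _ _ => one_le_absNorm v
          rw [Finset.mem_image] at hv
          obtain ⟨p, hp, rfl⟩ := hv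
          have hpp := Nat.prime_of_mem_primeFactors (Finset.mem_filter.mp hp).1
          have hpn := Nat.dvd_of_mem_primeFactors (Finset.mem_filter.mp hp).1
          have hpC := (Finset.mem_filter.mp hp).2
          rw [Set.Finite.mem_toFinset, Set.mem_setOf_eq]
          intro h0
          have h3 := place_ineq (K := K) hg hY hT one_pos hcop (f p) (Or.inl (by simp))
          rw [← curve_eq, h0] at h3
          have h4 : (f p).valuation K ((C0 g : ℕ) : K) = 1 := by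
            have h5 : Nat.Coprime p (C0 g) := (Nat.Prime.coprime_iff_not_dvd hpp).mpr hpC
            exact (val_one_or h5 (f p)).resolve_left (hf1 p hp).ne
          have h6 : (f p).valuation K ((DD g Y T 1 : ℕ) : K) < 1 := by
            refine val_lt_of_dvd (f p) (hf1 p hp) ?_
            unfold DD
            rw [hn] at hpn
            rcases (Nat.Prime.dvd_mul hpp).mp hpn with h | h
            · rcases (Nat.Prime.dvd_mul hpp).mp h with h | h
              · have : p ∣ Y ^ (2 * g) := h.trans (dvd_pow_self _ (by omega))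
                exact (this.mul_left _).mul_right _
              · have : p ∣ (16 * (T * (Y + T))) ^ (g + 1) :=
                  ((h.mul_right _).mul_left _).trans (dvd_pow_self _ (by omega))
                exact this.mul_left _
            · have : p ∣ (16 * (T * (Y + T))) ^ (g + 1) :=
                  ((h.mul_left _).mul_left _).trans (dvd_pow_self _ (by omega))
              exact this.mul_left _
          rw [h4, mul_one] at h3
          have h8 : (exp (-((0 : ℕ) : ℤ)) : WithZero (Multiplicative ℤ)) = 1 := by simp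
          rw [h8] at h3
          exact absurd h6 (not_lt.mpr h3)
  rw [e1]
  exact Nat.mul_le_mul h2 h1

/-! ### sizes -/

theorem dd_ge (hg : 2 ≤ g) (hTY : T ≤ Y) (hT : 0 < T) :
    (Y + T) ^ (3 * g + 1) ≤ 2 ^ (2 * g) * DD g Y T 1 := by
  have h1 : (Y + T) ^ (2 * g) ≤ 2 ^ (2 * g) * Y ^ (2 * g) := by
    rw [← mul_pow]
    exact Nat.pow_le_pow_left (by omega) _
  have h2 : (Y + T) ^ (g + 1) ≤ (16 * (T * (Y + T))) ^ (g + 1) := by
    apply Nat.pow_le_pow_left
    nlinarith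
  have h3 : 1 ≤ (g + 1) ^ (g + 1 + (g + 1)) * 1 ^ kap g := by
    rw [one_pow, mul_one]
    exact Nat.one_le_pow _ _ (by omega)
  have e : 3 * g + 1 = 2 * g + (g + 1) := by omega
  unfold DD
  calc (Y + T) ^ (3 * g + 1) = (Y + T) ^ (2 * g) * (Y + T) ^ (g + 1) := by rw [e, pow_add]
    _ ≤ (2 ^ (2 * g) * Y ^ (2 * g)) * (16 * (T * (Y + T))) ^ (g + 1) := Nat.mul_le_mul h1 h2
    _ = 2 ^ (2 * g) * (1 * Y ^ (2 * g) * (16 * (T * (Y + T))) ^ (g + 1)) := by ring
    _ ≤ 2 ^ (2 * g) * ((g + 1) ^ (g + 1 + (g + 1)) * 1 ^ kap g * Y ^ (2 * g) *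
        (16 * (T * (Y + T))) ^ (g + 1)) := by gcongr

/-- the constant in the upper bound -/
def C1 (g : ℕ) : ℕ := (g + 1) ^ (g + 1 + (g + 1)) * 16 ^ (g + 1)

theorem dd_le : DD g Y T 1 ≤ C1 g * (Y + T) ^ (4 * g + 2) := by
  have h1 : Y ^ (2 * g) ≤ (Y + T) ^ (2 * g) := Nat.pow_le_pow_left (by omega) _
  have h2 : (16 * (T * (Y + T))) ^ (g + 1) ≤ 16 ^ (g + 1) * (Y + T) ^ (2 * g + 2) := by
    have : (Y + T) ^ (2 * g + 2) = ((Y + T) * (Y + T)) ^ (g + 1) := by
      rw [← sq, ← pow_mul]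
      congr 1
    rw [this, ← mul_pow]
    apply Nat.pow_le_pow_left
    have : T * (Y + T) ≤ (Y + T) * (Y + T) := Nat.mul_le_mul_right _ (by omega)
    omega
  unfold DD C1
  calc (g + 1) ^ (g + 1 + (g + 1)) * 1 ^ kap g * Y ^ (2 * g) * (16 * (T * (Y + T))) ^ (g + 1)
      ≤ (g + 1) ^ (g + 1 + (g + 1)) * 1 ^ kap g * (Y + T) ^ (2 * g) *
        (16 ^ (g + 1) * (Y + T) ^ (2 * g + 2)) := by gcongr
    _ = (g + 1) ^ (g + 1 + (g + 1)) * 16 ^ (g + 1) * (Y + T) ^ (4 * g + 2) := by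
      rw [one_pow, mul_one, show 4 * g + 2 = 2 * g + (2 * g + 2) by omega,
        pow_add (Y + T) (2 * g) (2 * g + 2)]
      ring

end

/-- the abc inequality with the exponent `A` -/
def ABC (A : ℝ) : Prop :=
  ∃ C : ℝ, ∀ a b : ℕ, 0 < a → 0 < b → Nat.Coprime a b →
    ((a + b : ℕ) : ℝ) ≤ C * (rad (a * b * (a + b)) : ℝ) ^ A

/-- the discriminant bound with the exponent `κ` for the members of the pencil -/
def Pencil (K : Type) [Field K] [NumberField K] (g : ℕ) (κ : ℝ) : Prop :=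
  ∃ c : ℝ, ∀ Y T : ℕ, 0 < Y → 0 < T → Nat.Coprime Y T →
    (discNorm g (curve K g Y T) : ℝ) ≤ c * (badNorm g (curve K g Y T) : ℝ) ^ κ

theorem abc_ordered {K : Type} [Field K] [NumberField K] {g : ℕ} (hg : 2 ≤ g) {κ : ℝ} (hκ : 0 ≤ κ)
    (h : Pencil K g κ) : ∃ C : ℝ, ∀ Y T : ℕ, 0 < Y → 0 < T → T ≤ Y → Nat.Coprime Y T →
      ((Y + T : ℕ) : ℝ) ≤ C * (rad (Y * T * (Y + T)) : ℝ) ^ (κ / (3 * g + 1)) := by
  obtain ⟨c, hc⟩ := h
  set d := Module.finrank ℚ K with hd
  have hd0 : 0 < d := Module.finrank_pos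
  set M : ℕ := (3 * g + 1) * d with hM
  have hM0 : 0 < M := Nat.mul_pos (by omega) hd0
  set B : ℝ := (2 ^ (2 * g)) ^ d * (C0 g : ℝ) ^ d * max c 0 * ((2 * (g + 1) : ℕ) : ℝ) ^ (d * κ)
    with hB
  have hB0 : 0 ≤ B := by positivity
  refine ⟨B ^ ((1 : ℝ) / M), fun Y T hY hT hTY hcop => ?_⟩
  set R := rad (Y * T * (Y + T)) with hR
  have hR0 : (0 : ℝ) < R := by exact_mod_cast rad_pos _
  have h1 : ((Y + T : ℕ) : ℝ) ^ M ≤ (2 ^ (2 * g)) ^ d * (DD g Y T 1 : ℝ) ^ d := by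
    rw [hM, pow_mul, ← mul_pow]
    exact pow_le_pow_left₀ (by positivity) (by exact_mod_cast dd_ge hg hTY hT) _
  have h2 : (DD g Y T 1 : ℝ) ^ d ≤ (C0 g : ℝ) ^ d * (discNorm g (curve K g Y T) : ℝ) := by
    exact_mod_cast low (K := K) hg hY hT hcop
  have hbn : (1 : ℝ) ≤ (badNorm g (curve K g Y T) : ℝ) := by
    exact_mod_cast one_le_badNorm (hyp (K := K) (g := g) hY hT)
  have h3 : (badNorm g (curve K g Y T) : ℝ) ≤ (((2 * (g + 1) : ℕ) : ℝ) * R) ^ d := by
    exact_mod_cast bad_up (K := K) (g := g) hY hT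
  have h4 : (badNorm g (curve K g Y T) : ℝ) ^ κ ≤
      ((2 * (g + 1) : ℕ) : ℝ) ^ (d * κ) * (R : ℝ) ^ (d * κ) := by
    calc (badNorm g (curve K g Y T) : ℝ) ^ κ ≤ ((((2 * (g + 1) : ℕ) : ℝ) * R) ^ d) ^ κ :=
          Real.rpow_le_rpow (by positivity) h3 hκ
      _ = (((2 * (g + 1) : ℕ) : ℝ) * R) ^ ((d : ℝ) * κ) := by
          rw [← Real.rpow_natCast, ← Real.rpow_mul (by positivity)]
      _ = _ := Real.mul_rpow (by positivity) hR0.le
  have h5 : (discNorm g (curve K g Y T) : ℝ) ≤ max c 0 *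
      (((2 * (g + 1) : ℕ) : ℝ) ^ (d * κ) * (R : ℝ) ^ (d * κ)) := by
    refine (hc Y T hY hT hcop).trans ?_
    calc c * (badNorm g (curve K g Y T) : ℝ) ^ κ ≤ max c 0 * (badNorm g (curve K g Y T) : ℝ) ^ κ :=
          mul_le_mul_of_nonneg_right (le_max_left _ _) (by positivity)
      _ ≤ _ := mul_le_mul_of_nonneg_left h4 (le_max_right _ _)
  have h6 : ((Y + T : ℕ) : ℝ) ^ M ≤ B * (R : ℝ) ^ (d * κ) := by
    calc ((Y + T : ℕ) : ℝ) ^ M ≤ (2 ^ (2 * g)) ^ d * (DD g Y T 1 : ℝ) ^ d := h1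
      _ ≤ (2 ^ (2 * g)) ^ d * ((C0 g : ℝ) ^ d * (max c 0 *
          (((2 * (g + 1) : ℕ) : ℝ) ^ (d * κ) * (R : ℝ) ^ (d * κ)))) := by
          refine mul_le_mul_of_nonneg_left (h2.trans ?_) (by positivity)
          exact mul_le_mul_of_nonneg_left h5 (by positivity)
      _ = B * (R : ℝ) ^ (d * κ) := by rw [hB]; ring
  have hMr : (0 : ℝ) < M := by exact_mod_cast hM0
  calc ((Y + T : ℕ) : ℝ) = (((Y + T : ℕ) : ℝ) ^ M) ^ ((1 : ℝ) / M) := by
        rw [← Real.rpow_natCast, ← Real.rpow_mul (by positivity), mul_one_div_cancel hMr.ne',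
          Real.rpow_one]
    _ ≤ (B * (R : ℝ) ^ (d * κ)) ^ ((1 : ℝ) / M) :=
        Real.rpow_le_rpow (by positivity) h6 (by positivity)
    _ = B ^ ((1 : ℝ) / M) * (R : ℝ) ^ (κ / (3 * g + 1)) := by
        rw [Real.mul_rpow hB0 (by positivity), ← Real.rpow_mul hR0.le]
        congr 2
        rw [hM]
        push_cast
        have : (d : ℝ) ≠ 0 := by exact_mod_cast hd0.ne'
        field_simp

/-- the discriminant bound along the pencil implies an abc inequality -/
theorem abc_of_pencil {K : Type} [Field K] [NumberField K] {g : ℕ} (hg : 2 ≤ g) {κ : ℝ}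
    (hκ : 0 ≤ κ) (h : Pencil K g κ) : ABC (κ / (3 * g + 1)) := by
  obtain ⟨C, hC⟩ := abc_ordered hg hκ h
  refine ⟨C, fun a b ha hb hab => ?_⟩
  rcases le_total b a with h1 | h1
  · exact hC a b ha hb h1 hab
  · have := hC b a hb ha h1 hab.symm
    rwa [add_comm b a, mul_comm b a] at this

/-- an abc inequality implies the discriminant bound along the pencil -/
theorem pencil_of_abc (K : Type) [Field K] [NumberField K] {g : ℕ} (hg : 2 ≤ g) {A : ℝ}
    (hA : 0 ≤ A) (h : ABC A) : Pencil K g ((4 * g + 2) * Module.finrank ℚ K * A) := by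
  obtain ⟨C, hC⟩ := h
  set d := Module.finrank ℚ K with hd
  set N : ℕ := (4 * g + 2) * d with hN
  refine ⟨((2 : ℝ) ^ (4 * g) * C1 g) ^ d * (max C 0) ^ N * (C0 g : ℝ) ^ (N * A),
    fun Y T hY hT hcop => ?_⟩
  set R := rad (Y * T * (Y + T)) with hR
  have hR0 : (0 : ℝ) < R := by exact_mod_cast rad_pos _
  have hbn : (1 : ℝ) ≤ (badNorm g (curve K g Y T) : ℝ) := by
    exact_mod_cast one_le_badNorm (hyp (K := K) (g := g) hY hT)
  have h1 : (discNorm g (curve K g Y T) : ℝ) ≤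
      ((2 : ℝ) ^ (4 * g) * C1 g) ^ d * ((Y + T : ℕ) : ℝ) ^ N := by
    have e1 : (discNorm g (curve K g Y T) : ℝ) ≤ ((2 ^ (4 * g) * DD g Y T 1 : ℕ) : ℝ) ^ d := by
      exact_mod_cast up (K := K) hg hY hT
    have e2 : ((2 ^ (4 * g) * DD g Y T 1 : ℕ) : ℝ) ≤
        (2 : ℝ) ^ (4 * g) * C1 g * ((Y + T : ℕ) : ℝ) ^ (4 * g + 2) := by
      have e3 : ((DD g Y T 1 : ℕ) : ℝ) ≤ (C1 g : ℝ) * ((Y + T : ℕ) : ℝ) ^ (4 * g + 2) := by
        exact_mod_cast dd_le (g := g) (Y := Y) (T := T)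
      calc ((2 ^ (4 * g) * DD g Y T 1 : ℕ) : ℝ) = (2 : ℝ) ^ (4 * g) * ((DD g Y T 1 : ℕ) : ℝ) := by
            push_cast
            ring
        _ ≤ (2 : ℝ) ^ (4 * g) * ((C1 g : ℝ) * ((Y + T : ℕ) : ℝ) ^ (4 * g + 2)) :=
            mul_le_mul_of_nonneg_left e3 (by positivity)
        _ = _ := by ring
    calc (discNorm g (curve K g Y T) : ℝ) ≤ ((2 ^ (4 * g) * DD g Y T 1 : ℕ) : ℝ) ^ d := e1
      _ ≤ ((2 : ℝ) ^ (4 * g) * C1 g * ((Y + T : ℕ) : ℝ) ^ (4 * g + 2)) ^ d :=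
          pow_le_pow_left₀ (by positivity) e2 _
      _ = _ := by rw [mul_pow, ← pow_mul, hN]
  have h2 : ((Y + T : ℕ) : ℝ) ≤ max C 0 * (R : ℝ) ^ A :=
    (hC Y T hY hT hcop).trans (mul_le_mul_of_nonneg_right (le_max_left _ _) (by positivity))
  have h3 : (R : ℝ) ≤ C0 g * (badNorm g (curve K g Y T) : ℝ) := by
    exact_mod_cast bad_low (K := K) hg hY hT hcop
  have h4 : (R : ℝ) ^ (N * A) ≤ (C0 g : ℝ) ^ (N * A) *
      (badNorm g (curve K g Y T) : ℝ) ^ (N * A) := by
    rw [← Real.mul_rpow (by positivity) (by positivity)]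
    exact Real.rpow_le_rpow hR0.le h3 (by positivity)
  have h5 : ((Y + T : ℕ) : ℝ) ^ N ≤ (max C 0) ^ N * (R : ℝ) ^ (N * A) := by
    calc ((Y + T : ℕ) : ℝ) ^ N ≤ (max C 0 * (R : ℝ) ^ A) ^ N := pow_le_pow_left₀ (by positivity) h2 _
      _ = _ := by
        rw [mul_pow, ← Real.rpow_natCast ((R : ℝ) ^ A) N, ← Real.rpow_mul hR0.le, mul_comm A]
  have e : ((4 * g + 2) * (d : ℝ) * A) = (N : ℝ) * A := by
    rw [hN]
    push_cast
    ring
  rw [e]
  calc (discNorm g (curve K g Y T) : ℝ) ≤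
        ((2 : ℝ) ^ (4 * g) * C1 g) ^ d * ((Y + T : ℕ) : ℝ) ^ N := h1
    _ ≤ ((2 : ℝ) ^ (4 * g) * C1 g) ^ d * ((max C 0) ^ N * ((C0 g : ℝ) ^ (N * A) *
        (badNorm g (curve K g Y T) : ℝ) ^ (N * A))) := by
        refine mul_le_mul_of_nonneg_left (h5.trans ?_) (by positivity)
        exact mul_le_mul_of_nonneg_left h4 (by positivity)
    _ = _ := by ring

end Pool.Agent.Q245.Sz
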